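import Pool.Agent.Lib.MP_ab8df0_nt.T.B71a.R0

/-! The result of the computation. -/

set_option maxRecDepth 100000

namespace Pool.Agent.Lib.MP_ab8df0_nt.T.B71a

open Pool.Agent.Lib.MP_ab8df0_nt.B Pool.Agent.Lib.MP_ab8df0_nt.P

theorem relN {K : Type} [Field K] [NumberField K] {a : K} {pl : List (Place K)} {ph : List (K →+* ℝ)}
    {w : List (IsDedekindDomain.HeightOneSpectrum (NumberField.RingOfIntegers K))}
    (hP : Pack K (FDQ5a.pick [1, 0]) a pl ph w) : (((a) ^ 2) - (2 * ((cval a vs 4) ^ 2))) = (-4) := by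
  have h : ((((cval a vs 0) ^ 2) + (-((((2 : ℤ) : K) * ((cval a vs 4) ^ 2))))) + (-(((-4 : ℤ) : K)))) = 0 :=
    hP.rel vs (.add (.add (.sq (.var 0)) (.neg (.mul (.num 2) (.sq (.var 4))))) (.neg (.num (-4)))) (by decide +kernel)
  have h0 : cval a vs 0 = a := by simp [cval, vs, ev]
  try rw [h0] at h
  try push_cast at h
  linear_combination h

theorem relR {K : Type} [Field K] [NumberField K] {a : K} {pl : List (Place K)} {ph : List (K →+* ℝ)}
    {w : List (IsDedekindDomain.HeightOneSpectrum (NumberField.RingOfIntegers K))}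
    (hP : Pack K (FDQ5a.pick [1, 0]) a pl ph w) : (cval a vs 5 * a) = cval a vs 4 := by
  have h : ((cval a vs 5 * cval a vs 0) + (-(cval a vs 4))) = 0 :=
    hP.rel vs (.add (.mul (.var 5) (.var 0)) (.neg (.var 4))) (by decide +kernel)
  have h0 : cval a vs 0 = a := by simp [cval, vs, ev]
  try rw [h0] at h
  try push_cast at h
  linear_combination h

theorem rel0 {K : Type} [Field K] [NumberField K] {a : K} {pl : List (Place K)} {ph : List (K →+* ℝ)}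
    {w : List (IsDedekindDomain.HeightOneSpectrum (NumberField.RingOfIntegers K))}
    (hP : Pack K (FDQ5a.pick [1, 0]) a pl ph w) : ((a * ((((a) ^ 2)) ^ 2)) + ((20 * (a * (((a) ^ 2) * ((cval a vs 4) ^ 2)))) + (20 * (a * ((((cval a vs 4) ^ 2)) ^ 2))))) = 32 := by
  have h : (((cval a vs 0 * ((((cval a vs 0) ^ 2)) ^ 2)) + ((((20 : ℤ) : K) * (cval a vs 0 * (((cval a vs 0) ^ 2) * ((cval a vs 4) ^ 2)))) + (((20 : ℤ) : K) * (cval a vs 0 * ((((cval a vs 4) ^ 2)) ^ 2))))) + (-(((32 : ℤ) : K)))) = 0 :=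
    hP.rel vs (.add (.add (.mul (.var 0) (.sq (.sq (.var 0)))) (.add (.mul (.num 20) (.mul (.var 0) (.mul (.sq (.var 0)) (.sq (.var 4))))) (.mul (.num 20) (.mul (.var 0) (.sq (.sq (.var 4))))))) (.neg (.num 32))) (by decide +kernel)
  have h0 : cval a vs 0 = a := by simp [cval, vs, ev]
  try rw [h0] at h
  try push_cast at h
  linear_combination h

theorem rel1 {K : Type} [Field K] [NumberField K] {a : K} {pl : List (Place K)} {ph : List (K →+* ℝ)}
    {w : List (IsDedekindDomain.HeightOneSpectrum (NumberField.RingOfIntegers K))}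
    (hP : Pack K (FDQ5a.pick [1, 0]) a pl ph w) : ((5 * (((((a) ^ 2)) ^ 2) * cval a vs 4)) + ((20 * (((a) ^ 2) * (cval a vs 4 * ((cval a vs 4) ^ 2)))) + (4 * (cval a vs 4 * ((((cval a vs 4) ^ 2)) ^ 2))))) = 32 := by
  have h : (((((5 : ℤ) : K) * (((((cval a vs 0) ^ 2)) ^ 2) * cval a vs 4)) + ((((20 : ℤ) : K) * (((cval a vs 0) ^ 2) * (cval a vs 4 * ((cval a vs 4) ^ 2)))) + (((4 : ℤ) : K) * (cval a vs 4 * ((((cval a vs 4) ^ 2)) ^ 2))))) + (-(((32 : ℤ) : K)))) = 0 :=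
    hP.rel vs (.add (.add (.mul (.num 5) (.mul (.sq (.sq (.var 0))) (.var 4))) (.add (.mul (.num 20) (.mul (.sq (.var 0)) (.mul (.var 4) (.sq (.var 4))))) (.mul (.num 4) (.mul (.var 4) (.sq (.sq (.var 4))))))) (.neg (.num 32))) (by decide +kernel)
  have h0 : cval a vs 0 = a := by simp [cval, vs, ev]
  try rw [h0] at h
  try push_cast at h
  linear_combination h

theorem relM {K : Type} [Field K] [NumberField K] {a : K} {pl : List (Place K)} {ph : List (K →+* ℝ)}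
    {w : List (IsDedekindDomain.HeightOneSpectrum (NumberField.RingOfIntegers K))}
    (hP : Pack K (FDQ5a.pick [1, 0]) a pl ph w) : (cval a vs 4 * (((((a) ^ 2)) ^ 2) + ((3 * ((a) ^ 2)) + 1))) = 2 := by
  have h : ((cval a vs 4 * (((((cval a vs 0) ^ 2)) ^ 2) + ((((3 : ℤ) : K) * ((cval a vs 0) ^ 2)) + ((1 : ℤ) : K)))) + (-(((2 : ℤ) : K)))) = 0 :=
    hP.rel vs (.add (.mul (.var 4) (.add (.sq (.sq (.var 0))) (.add (.mul (.num 3) (.sq (.var 0))) (.num 1)))) (.neg (.num 2))) (by decide +kernel)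
  have h0 : cval a vs 0 = a := by simp [cval, vs, ev]
  try rw [h0] at h
  try push_cast at h
  linear_combination h

theorem core {K : Type} [Field K] [NumberField K] {a : K} {pl : List (Place K)} {ph : List (K →+* ℝ)}
    {w : List (IsDedekindDomain.HeightOneSpectrum (NumberField.RingOfIntegers K))}
    (hP : Pack K (FDQ5a.pick [1, 0]) a pl ph w) {G : Prop} (t r dr : K)
    (hdisc : Q2 0 (t - ((0 : ℤ) : K)))
    (hdr : dr = ((-4) * ((a * (a + (2 * (t * cval a vs 4)))))⁻¹))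
    (hr : r = (cval a vs 5 + (t * dr)))
    (hcls : ∀ v : IsDedekindDomain.HeightOneSpectrum (NumberField.RingOfIntegers K), ((10 : ℕ) : NumberField.RingOfIntegers K) ∉ v.asIdeal →
      ∃ k : ℤ, v.valuation K ((5 * ((((2 * ((r) ^ 2)) + 1)) ^ 2)) - 4) = WithZero.exp (2 * k))
    (hclsre : ∀ i ∈ [0], ∀ φ, ph[i]? = some φ → 0 < φ ((5 * ((((2 * ((r) ^ 2)) + 1)) ^ 2)) - 4))
    (hout0 : IsSquare (((5 * ((((2 * ((r) ^ 2)) + 1)) ^ 2)) - 4) * (ev a dl0.1 / (dl0.2 : K))) → G) :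
    G := by
  refine hP.cover (fr := [t, r, dr]) (M := M) (cs := [[], []]) rfl auto
    (l := [(0, 0)]) (by decide) ?_ hdisc fun tt kk hq => ?_
  · exact List.forall_mem_cons.2 ⟨⟨_, r0⟩, fun _ h => absurd h List.not_mem_nil⟩
  · refine List.forall_mem_cons.2 ⟨?_, List.forall_mem_cons.2 ⟨?_, List.forall_mem_cons.2 ⟨?_, List.forall_mem_cons.2 ⟨?_, List.forall_mem_cons.2 ⟨?_, fun _ h => absurd h List.not_mem_nil⟩⟩⟩⟩⟩
    · exact hq
    · show dr = (((-4 : ℤ) : K) * ((a * (a + (((2 : ℤ) : K) * (t * cval a vs 4)))))⁻¹)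
      try push_cast
      linear_combination hdr
    · show r = (cval a vs 5 + (t * dr))
      try push_cast
      linear_combination hr
    · exact fun h0 => hP.span_cut (nf := 3) (vs := vs) (x := ((((5 : ℤ) : K) * ((((((2 : ℤ) : K) * ((r) ^ 2)) + ((1 : ℤ) : K))) ^ 2)) + (-(((4 : ℤ) : K))))) (fr := [t, r, dr]) rfl k0 (by decide +kernel) h0 ((by push_cast; ring : ((((5 : ℤ) : K) * ((((((2 : ℤ) : K) * ((r) ^ 2)) + ((1 : ℤ) : K))) ^ 2)) + (-(((4 : ℤ) : K)))) = ((5 * ((((2 * ((r) ^ 2)) + 1)) ^ 2)) - 4)) ▸ hcls) ((by push_cast; ring : ((((5 : ℤ) : K) * ((((((2 : ℤ) : K) * ((r) ^ 2)) + ((1 : ℤ) : K))) ^ 2)) + (-(((4 : ℤ) : K)))) = ((5 * ((((2 * ((r) ^ 2)) + 1)) ^ 2)) - 4)) ▸ hclsre) (fun _ h => absurd h List.not_mem_nil)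
    · exact fun h0 => hout0 ((by push_cast; ring : ((((5 : ℤ) : K) * ((((((2 : ℤ) : K) * ((r) ^ 2)) + ((1 : ℤ) : K))) ^ 2)) + (-(((4 : ℤ) : K)))) = ((5 * ((((2 * ((r) ^ 2)) + 1)) ^ 2)) - 4)) ▸ hP.out (nf := 3) (vs := vs) (x := ((((5 : ℤ) : K) * ((((((2 : ℤ) : K) * ((r) ^ 2)) + ((1 : ℤ) : K))) ^ 2)) + (-(((4 : ℤ) : K))))) (fr := [t, r, dr]) rfl dl0 ([1], 1) (by decide +kernel) h0)

end Pool.Agent.Lib.MP_ab8df0_nt.T.B71a
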