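import Pool.Agent.Lib.MP_ab8df0_nt.B.Auto2
import Pool.Agent.Lib.MP_ab8df0_nt.P.Q5aD

/-! Constants and hypotheses. -/

set_option maxRecDepth 100000

namespace Pool.Agent.Lib.MP_ab8df0_nt.T.B71a

open Pool.Agent.Lib.MP_ab8df0_nt.B Pool.Agent.Lib.MP_ab8df0_nt.P

def dl0 : List ℤ × ℕ := ([0, 2], 1)

def vs : Cs := [([0, 1], 1), ([], 1), ([], 1), ([], 1), 
  ([2, 1, 4, 0, 1], 2),
  ([6, 4, 5, 1, 1], 2),
  ([1, -1, -1], 1),
  ([0, 1], 1),
  ([0, 1, -1, 0, -1], 1),
  ([2], 1),
  ([1, 0, 1], 1)]

def M (t0 : ℤ) (k0 : ℕ) : List Hyp := [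
  .disc 1 t0 k0,
  .eq 3 (.mul (.num (-4)) (.inv (.mul (.var 0) (.add (.var 0) (.mul (.num 2) (.mul (.var 1) (.var 4))))))),
  .eq 2 (.add (.var 5) (.mul (.var 1) (.var 3))),
  .cls (.add (.mul (.num 5) (.sq (.add (.mul (.num 2) (.sq (.var 2))) (.num 1)))) (.neg (.num 4))) [6, 7, 8, 9, 10],
  .out (.add (.mul (.num 5) (.sq (.add (.mul (.num 2) (.sq (.var 2))) (.num 1)))) (.neg (.num 4))) [6, 7, 8, 9, 10] [false, true, false, true, false]]

def k0 : Cut := ⟨[0], [], [[true, false, false, false, false, false]], [[true, false, false, false, true, false], [false, true, false, false, false, false], [true, true, false, false, false, true], [false, false, true, false, false, false], [false, false, false, true, false, false]], [[true, false, false, false, false, false], [false, false, true, false, false, false], [false, false, false, false, true, false], [false, false, false, false, false, true], [true, true, false, false, false, false], [true, false, true, true, false, false]]⟩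

def A : List AH := [
  ]

theorem auto : (baseOk 3 vs && A.all (AH.ok (FDQ5a.pick [1, 0]) 3 vs)) = true := by decide +kernel

end Pool.Agent.Lib.MP_ab8df0_nt.T.B71a
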