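import Pool.Agent.Lib.MP_ab8df0_nt.T.B71a.Def

/-! Proof trees. -/

set_option maxRecDepth 100000

namespace Pool.Agent.Lib.MP_ab8df0_nt.T.B71a

open Pool.Agent.Lib.MP_ab8df0_nt.B Pool.Agent.Lib.MP_ab8df0_nt.P

def r0_0 : Tree := .set 4 [[ce (-1) 264 1 1 0x1], [ce (-1) 264 1 1 0x1]] (.set 5 [[ce (-1) 264 1 1 0x1], [ce (-1) 264 1 1 0x1]] (.set 6 [[], []] (.set 7 [[], []] (.set 8 [[], []] (.set 9 [[], []] (.set 10 [[], []] (.piv [6, 7, 8, 9, 10] [[ce 0 264 1 0 0x0], [ce 0 264 5 4 0x12e03], [ce 0 264 5 4 0xb4f18], [ce (-1) 264 5 4 0xcb919], [ce 0 264 5 4 0x2e9ad, ce 0 264 1 1 0x1]] (.disc 11 (.set 12 [[ce 0 264 2 4 0xb3], [ce (-2) 264 1 1 0x1]] (.set 13 [[], []] (.split 11 (.set 12 [[ce 0 264 4 4 0x2b03], [ce (-2) 264 5 1 0x11]] (.set 13 [[], []] (.split 11 (.set 12 [[ce 0 264 5 4 0x12e03], [ce (-2) 264 5 1 0x11]] (.set 13 [[], []] (.conc 14 16 15 [[], []] [ce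 (-3) 264 5 4 0x42f00, ce (-1) 264 1 1 0x1]))) (.set 12 [[ce 0 264 5 4 0x174cd], [ce (-2) 264 6 1 0x2d]] (.set 13 [[], []] (.dead 14 16 [[], []] [false, true, false, false, false] [ce (-3) 264 5 4 0x8a62c])))))) (.set 12 [[ce 0 264 4 4 0xe05c], [ce (-2) 264 2 1 0x3]] (.set 13 [[], []] (.split 11 (.set 12 [[ce 0 264 5 4 0x700bc], [ce (-2) 264 6 1 0x23]] (.set 13 [[], []] (.dead 14 16 [[], []] [false, false, false, false, false] [ce (-3) 264 5 4 0x40f6d]))) (.set 12 [[ce 0 264 5 4 0x71bfa], [ce (-2) 264 6 1 0x3f]] (.set 13 [[], []] (.dead 14 16 [[], []] [false, false, false, false, false] [ce (-3) 264 5 3 0x2d7d])))))))))))))))))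

theorem r0 : run (FDQ5a.pick [1, 0]).ds (FDQ5a.pick [1, 0]).es [[], []] vs.length (fullH 3 vs (M 0 0) A) r0_0 = true := by
  decide +kernel

end Pool.Agent.Lib.MP_ab8df0_nt.T.B71a
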